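import Pool.Agent.Run7.h434.PL.Final

/-!
# Multiple coverings by planks in all dimensions: the ball, and bounds for all convex bodies

`c_K(k)` is the least total width of a `k`-fold covering of `K ⊂ ℝ^d` by planks, divided by the minimal
width `w` of `K`; `r` is the inradius. Put `λ_d = √π Γ((d-1)/2) / (2 Γ(d/2))`, so that `λ_3 = 1`,
`λ_4 = π/4`, `λ_(d+2) = (d-1)/d λ_d`. For all `d ≥ 3`:

1. for every convex body `K`: `c_K(k) ≥ λ_d (2r/w) k` for all `k`;
2. `c_K(k)/k` has a limit `L`, `c_K(k) ≥ L k` for all `k`, and `λ_d (2r/w) ≤ L ≤ 2r/w`; moreover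
   `L ≤ λ_d (2R/w)` if `K` is contained in a ball of radius `R`;
3. for every ball: `c_K(k) ≥ λ_d k` and `c_K(k)/k → λ_d`.

So `c_K(k) < k` for the ball and all large `k` in dimension `d ≥ 4`, in contrast to `d = 2, 3`, where
the starting results determine the limit for all bodies: it is `2r/w`.

Proof. The mass of a plank of width `p` for the uniform measure on the unit sphere is at most
`p / (2 λ_d)` (thin shells are used), and planks through the centre of small width have about this
mass. This gives the lower bound; for the upper bound a fine partition of a thin shell gives finitely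
many directions with weights such that thin central planks in these directions cover every point
of the unit ball with almost the right weight.
-/

set_option autoImplicit false

open Metric Set Filter Topology

namespace Pool.Agent.Results.MP_4043ba_gt.BallAsymptotics

open Pool.Agent.Helper934.PlankDefs Pool.Agent.Helper934.PlankMain Run7.h434.PL

/-- `λ_d = √π Γ((d-1)/2) / (2 Γ(d/2))` -/
noncomputable def ballConst (d : ℕ) : ℝ :=
  √Real.pi * Real.Gamma (((d : ℝ) - 1) / 2) / (2 * Real.Gamma ((d : ℝ) / 2))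

lemma kap_eq {n : ℕ} (hn : 1 ≤ n) : kap n = √Real.pi ^ n / Real.Gamma ((n : ℝ) / 2 + 1) := by
  have : Nonempty (Fin n) := ⟨⟨0, hn⟩⟩
  unfold kap
  rw [EuclideanSpace.volume_ball]
  simp only [ENNReal.ofReal_one, one_pow, one_mul, Fintype.card_fin]
  rw [ENNReal.toReal_ofReal]
  have := Real.Gamma_pos_of_pos (show (0 : ℝ) < (n : ℝ) / 2 + 1 by positivity)
  positivity

lemma lamb_eq {n : ℕ} (hn : 1 ≤ n) : lamb n = ballConst (n + 1) := by
  have hn0 : (0 : ℝ) < n := by exact_mod_cast hn
  have g1 := Real.Gamma_add_one (show (n : ℝ) / 2 ≠ 0 by positivity)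
  have g2 := Real.Gamma_add_one (show ((n : ℝ) + 1) / 2 ≠ 0 by positivity)
  have p1 := Real.Gamma_pos_of_pos (show (0 : ℝ) < (n : ℝ) / 2 by positivity)
  have p2 := Real.Gamma_pos_of_pos (show (0 : ℝ) < ((n : ℝ) + 1) / 2 by positivity)
  have hpi : 0 < √Real.pi := Real.sqrt_pos.2 Real.pi_pos
  unfold lamb ballConst
  rw [kap_eq hn, kap_eq (show 1 ≤ n + 1 by omega)]
  push_cast
  rw [g1, g2, show (n : ℝ) + 1 - 1 = n by ring, pow_succ]
  field_simp

lemma limit_le {f : ℕ → ℝ} {L a C : ℝ} (h : Tendsto (fun k : ℕ => f k / k) atTop (𝓝 L))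
    (hf : ∀ k : ℕ, 1 ≤ k → f k ≤ a * k + C) : L ≤ a := by
  have h1 : Tendsto (fun k : ℕ => a + C / (k : ℝ)) atTop (𝓝 (a + 0)) :=
    tendsto_const_nhds.add (tendsto_const_div_atTop_nhds_zero_nat C)
  rw [add_zero] at h1
  refine le_of_tendsto_of_tendsto h h1 ?_
  filter_upwards [eventually_ge_atTop 1] with k hk
  have hk0 : (0 : ℝ) < k := by exact_mod_cast hk
  rw [div_le_iff₀ hk0]
  have := hf k hk
  have e : (a + C / k) * k = a * k + C := by field_simp
  rw [e]
  exact this

lemma body {n : ℕ} (hn : 2 ≤ n) {K : Set (EuclideanSpace ℝ (Fin (n + 1)))}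
    (hK : IsConvexBody K) :
    (∀ k : ℕ, ballConst (n + 1) * (2 * inradius K / minWidth K) * k ≤ coverConst K k) ∧
    ∃ L : ℝ, Tendsto (fun k : ℕ => coverConst K k / k) atTop (𝓝 L) ∧
      (∀ k : ℕ, L * k ≤ coverConst K k) ∧
      ballConst (n + 1) * (2 * inradius K / minWidth K) ≤ L ∧
      L ≤ 2 * inradius K / minWidth K ∧
      ∀ (g : EuclideanSpace ℝ (Fin (n + 1))) (R : ℝ), 0 < R → K ⊆ closedBall g R →
        L ≤ ballConst (n + 1) * (2 * R / minWidth K) := by
  have hd1 : 1 ≤ n + 1 := by omega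
  have hw := minWidth_pos hd1 hK
  have hlow : ∀ k : ℕ, ballConst (n + 1) * (2 * inradius K / minWidth K) * k ≤ coverConst K k := by
    intro k
    rw [← lamb_eq (show 1 ≤ n by omega)]
    exact coverConst_ge' hn hK k
  refine ⟨hlow, ?_⟩
  have hsub : Subadditive (fun k : ℕ => coverConst K k) := fun k l => coverConst_add hd1 hK k l
  have hbdd : BddBelow (range fun k : ℕ => coverConst K k / k) := by
    refine ⟨0, ?_⟩
    rintro _ ⟨k, rfl⟩
    exact div_nonneg (coverConst_nonneg hw.le k) (Nat.cast_nonneg k)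
  have hlim := hsub.tendsto_lim hbdd
  refine ⟨hsub.lim, hlim, ?_, ?_, ?_, ?_⟩
  · intro k
    rcases Nat.eq_zero_or_pos k with rfl | hk
    · simpa using coverConst_nonneg hw.le 0
    · have hk0 : (0 : ℝ) < k := by exact_mod_cast hk
      have := hsub.lim_le_div hbdd (show k ≠ 0 by omega)
      rwa [le_div_iff₀ hk0] at this
  · refine ge_of_tendsto hlim ?_
    filter_upwards [eventually_ge_atTop 1] with k hk
    have hk0 : (0 : ℝ) < k := by exact_mod_cast hk
    rw [le_div_iff₀ hk0]
    exact hlow k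
  · obtain ⟨C, hC⟩ := coverConst_upper hd1 hK
    exact limit_le hlim hC
  · intro g R hR hKR
    have key : ∀ ε : ℝ, 0 < ε → hsub.lim ≤ (2 * lamb n + ε) * R / minWidth K := by
      intro ε hε
      obtain ⟨r, s, δ, hr, hr1, hs, hδ, hG, hrate⟩ := exists_rate hn hε
      obtain ⟨C, hC⟩ := cover_in_ball hn hr hr1 hs hδ hG hK g hR hKR
      refine (limit_le hlim fun k _ => hC k).trans ?_
      gcongr
    have key2 : hsub.lim ≤ 2 * lamb n * R / minWidth K := by
      refine le_of_forall_pos_le_add fun ε hε => ?_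
      have h1 := key (ε * minWidth K / R) (by positivity)
      have e : (2 * lamb n + ε * minWidth K / R) * R / minWidth K =
          2 * lamb n * R / minWidth K + ε := by field_simp
      rwa [e] at h1
    rw [← lamb_eq (show 1 ≤ n by omega)]
    refine key2.trans (le_of_eq ?_)
    ring

lemma ball_data {n : ℕ} (g : EuclideanSpace ℝ (Fin (n + 1))) {ρ : ℝ} (hρ : 0 < ρ) :
    IsConvexBody (closedBall g ρ) ∧ inradius (closedBall g ρ) = ρ ∧
      minWidth (closedBall g ρ) = 2 * ρ := by
  have hd1 : 1 ≤ n + 1 := by omega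
  have hb : IsConvexBody (closedBall g ρ) := by
    refine ⟨isCompact_closedBall g ρ, convex_closedBall g ρ, g, ?_⟩
    exact mem_interior.2 ⟨ball g ρ, ball_subset_closedBall, isOpen_ball, mem_ball_self hρ⟩
  have h1 : ρ ≤ inradius (closedBall g ρ) :=
    le_csSup (bddAbove_radii hd1 hb.1) ⟨hρ.le, g, subset_rfl⟩
  have h2 := minWidth_ge hd1 hb
  have h3 : minWidth (closedBall g ρ) ≤ 2 * ρ := by
    obtain ⟨e, he⟩ := exists_unit hd1
    have hne : (closedBall g ρ).Nonempty := ⟨g, mem_closedBall_self hρ.le⟩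
    have b1 : ∀ x ∈ closedBall g ρ, |inner ℝ x e - inner ℝ g e| ≤ ρ := by
      intro x hx
      rw [← inner_sub_left]
      refine (abs_real_inner_le_norm _ _).trans ?_
      rw [he, mul_one, ← dist_eq_norm]
      exact hx
    have h4 : widthIn (closedBall g ρ) e ≤ 2 * ρ := by
      unfold widthIn
      have u1 : sSup ((fun x => inner ℝ x e) '' closedBall g ρ) ≤ inner ℝ g e + ρ := by
        refine csSup_le (hne.image _) ?_
        rintro _ ⟨x, hx, rfl⟩
        have := (abs_le.1 (b1 x hx)).2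
        show inner ℝ x e ≤ _
        linarith
      have u2 : inner ℝ g e - ρ ≤ sInf ((fun x => inner ℝ x e) '' closedBall g ρ) := by
        refine le_csInf (hne.image _) ?_
        rintro _ ⟨x, hx, rfl⟩
        have := (abs_le.1 (b1 x hx)).1
        show _ ≤ inner ℝ x e
        linarith
      linarith
    refine le_trans (csInf_le ?_ ⟨e, he, rfl⟩) h4
    refine ⟨0, ?_⟩
    rintro _ ⟨u, hu, rfl⟩
    have := width_ge_of_ball hb hρ.le (subset_refl (closedBall g ρ)) u hu
    linarith
  exact ⟨hb, by linarith, by linarith⟩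

/-- **Multiple plank coverings in dimension `d ≥ 3`.** -/
theorem result :
    (∀ d : ℕ, 3 ≤ d → ∀ K : Set (EuclideanSpace ℝ (Fin d)), IsConvexBody K →
      (∀ k : ℕ, ballConst d * (2 * inradius K / minWidth K) * k ≤ coverConst K k) ∧
      ∃ L : ℝ, Tendsto (fun k : ℕ => coverConst K k / k) atTop (𝓝 L) ∧
        (∀ k : ℕ, L * k ≤ coverConst K k) ∧
        ballConst d * (2 * inradius K / minWidth K) ≤ L ∧
        L ≤ 2 * inradius K / minWidth K ∧
        ∀ (g : EuclideanSpace ℝ (Fin d)) (R : ℝ), 0 < R → K ⊆ closedBall g R →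
          L ≤ ballConst d * (2 * R / minWidth K)) ∧
    (∀ d : ℕ, 3 ≤ d → ∀ (g : EuclideanSpace ℝ (Fin d)) (ρ : ℝ), 0 < ρ →
      (∀ k : ℕ, ballConst d * k ≤ coverConst (closedBall g ρ) k) ∧
      Tendsto (fun k : ℕ => coverConst (closedBall g ρ) k / k) atTop (𝓝 (ballConst d))) ∧
    ballConst 3 = 1 ∧ ballConst 4 = Real.pi / 4 ∧
    ∀ d : ℕ, 3 ≤ d → ballConst (d + 2) = ((d : ℝ) - 1) / d * ballConst d := by
  refine ⟨?_, ?_, ?_, ?_, ?_⟩
  · intro d hd K hK
    obtain ⟨n, rfl⟩ : ∃ n, d = n + 1 := ⟨d - 1, by omega⟩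
    exact body (by omega) hK
  · intro d hd g ρ hρ
    obtain ⟨n, rfl⟩ : ∃ n, d = n + 1 := ⟨d - 1, by omega⟩
    obtain ⟨hb, h1, h2⟩ := ball_data g hρ
    obtain ⟨h3, L, h4, h5, h6, h7, h8⟩ := body (by omega) hb
    have h9 := h8 g ρ hρ subset_rfl
    have e1 : 2 * inradius (closedBall g ρ) / minWidth (closedBall g ρ) = 1 := by
      rw [h1, h2]
      exact div_self (by positivity)
    have e2 : 2 * ρ / minWidth (closedBall g ρ) = 1 := by
      rw [h2]
      exact div_self (by positivity)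
    rw [e1, mul_one] at h6
    rw [e2, mul_one] at h9
    refine ⟨fun k => ?_, ?_⟩
    · have := h3 k
      rwa [e1, mul_one] at this
    · have : L = ballConst (n + 1) := le_antisymm h9 h6
      rwa [this] at h4
  · unfold ballConst
    have h1 : Real.Gamma ((((3 : ℕ) : ℝ) - 1) / 2) = 1 := by
      rw [show ((((3 : ℕ) : ℝ) - 1) / 2) = 1 by norm_num, Real.Gamma_one]
    have h2 : Real.Gamma (((3 : ℕ) : ℝ) / 2) = √Real.pi / 2 := by
      rw [show (((3 : ℕ) : ℝ) / 2) = 1 / 2 + 1 by norm_num, Real.Gamma_add_one (by norm_num),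
        Real.Gamma_one_half_eq]
      ring
    have hpi : 0 < √Real.pi := Real.sqrt_pos.2 Real.pi_pos
    rw [h1, h2]
    field_simp
  · unfold ballConst
    have h1 : Real.Gamma ((((4 : ℕ) : ℝ) - 1) / 2) = √Real.pi / 2 := by
      rw [show ((((4 : ℕ) : ℝ) - 1) / 2) = 1 / 2 + 1 by norm_num, Real.Gamma_add_one (by norm_num),
        Real.Gamma_one_half_eq]
      ring
    have h2 : Real.Gamma (((4 : ℕ) : ℝ) / 2) = 1 := by
      rw [show (((4 : ℕ) : ℝ) / 2) = 1 + 1 by norm_num, Real.Gamma_add_one (by norm_num),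
        Real.Gamma_one]
      ring
    rw [h1, h2]
    have := Real.mul_self_sqrt Real.pi_pos.le
    linear_combination (1 / 4) * this
  · intro d hd
    have hd0 : (3 : ℝ) ≤ d := by exact_mod_cast hd
    have g1 := Real.Gamma_add_one (show ((d : ℝ) - 1) / 2 ≠ 0 by
      have : (0 : ℝ) < ((d : ℝ) - 1) / 2 := by linarith
      exact this.ne')
    have g2 := Real.Gamma_add_one (show (d : ℝ) / 2 ≠ 0 by positivity)
    have p1 := Real.Gamma_pos_of_pos (show (0 : ℝ) < ((d : ℝ) - 1) / 2 by linarith)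
    have p2 := Real.Gamma_pos_of_pos (show (0 : ℝ) < (d : ℝ) / 2 by positivity)
    unfold ballConst
    push_cast
    rw [show ((d : ℝ) + 2 - 1) / 2 = ((d : ℝ) - 1) / 2 + 1 by ring,
      show ((d : ℝ) + 2) / 2 = (d : ℝ) / 2 + 1 by ring, g1, g2]
    field_simp

end Pool.Agent.Results.MP_4043ba_gt.BallAsymptotics
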